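import Pool.Agent.W516.MTZ.Stm

/-!
# MTZ-TOR
-/

set_option autoImplicit false

namespace Pool.Agent.W906.MTZ

open Matrix MvPolynomial Pool.Agent.W516.MTZ

theorem T_TOR (h : StFit) : StTor := by
  intro m X _ _ _ _ M p hp hN n c a b hdeg heq
  obtain ⟨hgp, hmul, hinv, hes, het⟩ := h m X M
  -- the linear form
  set φ : Matrix m m ℂ → ℂ := fun g => ∑ x, (c x : ℂ) * g M.o (M.s x) with hφ
  have hφmul : ∀ g k : Matrix m m ℂ, Fits M g → Fits M k →
      φ (g * k) = k M.t M.t ^ n * φ g + φ k := by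
    intro g k hg hk
    have h3 := (hmul g k hg hk).2.2
    simp only [hφ]
    rw [Finset.mul_sum, ← Finset.sum_add_distrib]
    refine Finset.sum_congr rfl fun x _ => ?_
    rw [h3 x]
    by_cases hx : c x = 0
    · simp [hx]
    · rw [hdeg x hx]; ring
  have hφp : φ (p : Matrix m m ℂ) = a + b * (p : Matrix m m ℂ) M.t M.t ^ n := heq
  have hfp : Fits M (p : Matrix m m ℂ) := hgp p hp
  have hfpi : Fits M ((p⁻¹ : (Matrix m m ℂ)ˣ) : Matrix m m ℂ) := hinv p hfp
  have hf1 : Fits M (1 : Matrix m m ℂ) := by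
    have := hgp 1 (one_mem _)
    simpa using this
  have hφ1 : φ (1 : Matrix m m ℂ) = 0 := by
    have h1 := hφmul 1 1 hf1 hf1
    rw [mul_one, Matrix.one_apply_eq, one_pow, one_mul] at h1
    linear_combination -h1
  -- the group
  let G : Subgroup (Matrix m m ℂ)ˣ :=
    { carrier := {k | Fits M (k : Matrix m m ℂ) ∧
        φ (k : Matrix m m ℂ) = a * (1 - (k : Matrix m m ℂ) M.t M.t ^ n)}
      mul_mem' := by
        rintro g k ⟨hg, hg'⟩ ⟨hk, hk'⟩
        refine ⟨?_, ?_⟩
        · rw [Units.val_mul]; exact (hmul _ _ hg hk).1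
        · rw [Units.val_mul, hφmul _ _ hg hk, (hmul _ _ hg hk).2.1, hg', hk', mul_pow]
          ring
      one_mem' := by
        refine ⟨?_, ?_⟩
        · rw [Units.val_one]; exact hf1
        · rw [Units.val_one, hφ1, Matrix.one_apply_eq, one_pow]; ring
      inv_mem' := by
        rintro k ⟨hk, hk'⟩
        have hki := hinv k hk
        refine ⟨hki, ?_⟩
        have h1 := hφmul _ _ hk hki
        have h2 := (hmul _ _ hk hki).2.1
        rw [← Units.val_mul, mul_inv_cancel, Units.val_one] at h1 h2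
        rw [hφ1, hk'] at h1
        rw [Matrix.one_apply_eq] at h2
        have h3 : (k : Matrix m m ℂ) M.t M.t ^ n *
            ((k⁻¹ : (Matrix m m ℂ)ˣ) : Matrix m m ℂ) M.t M.t ^ n = 1 := by
          rw [← mul_pow, ← h2, one_pow]
        linear_combination -h1 + (a : ℂ) * h3 }
  have hG : ∀ k : (Matrix m m ℂ)ˣ, k ∈ G ↔ (Fits M (k : Matrix m m ℂ) ∧
        φ (k : Matrix m m ℂ) = a * (1 - (k : Matrix m m ℂ) M.t M.t ^ n)) := fun k => Iff.rfl
  set T : Set (Matrix m m ℂ)ˣ := {g | Fits M (g : Matrix m m ℂ) ∧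
    φ (g : Matrix m m ℂ) = a + b * (g : Matrix m m ℂ) M.t M.t ^ n} with hT
  have hpT : p ∈ T := ⟨hfp, hφp⟩
  have hTor : IsTorsor T := by
    refine ⟨⟨{f | (∃ i : m, f = MvPolynomial.X (i, M.o) - C (if i = M.o then (1 : ℚ) else 0)) ∨
      (∃ i : m, f = MvPolynomial.X (i, M.t) - (if i = M.t then MvPolynomial.X (M.t, M.t) else 0)) ∨
      (∃ (x : X) (i : m), f = MvPolynomial.X (i, M.s x) - (if i = M.s x then
        MvPolynomial.X (M.t, M.t) ^ M.deg x else if i = M.o then MvPolynomial.X (M.o, M.s x)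
        else 0)) ∨
      f = ∑ x, C (c x) * MvPolynomial.X (M.o, M.s x) - C a - C b * MvPolynomial.X (M.t, M.t) ^ n},
      ?_⟩, G, p, ?_⟩
    · ext g
      constructor
      · rintro ⟨hg, hg'⟩ f hf
        rcases hf with ⟨i, rfl⟩ | ⟨i, rfl⟩ | ⟨x, i, rfl⟩ | rfl
        · simp only [map_sub, aeval_X, aeval_C, crd]
          rw [hg.co i]
          split_ifs <;> simp
        · simp only [map_sub, aeval_X, crd]
          rw [hg.ct i]
          split_ifs <;> simp [crd]
        · simp only [map_sub, aeval_X, crd]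
          rw [hg.cs x i]
          split_ifs <;> simp [crd]
        · simp only [map_sub, map_sum, map_mul, map_pow, aeval_X, aeval_C, crd]
          have h1 : φ (g : Matrix m m ℂ) = a + b * (g : Matrix m m ℂ) M.t M.t ^ n := hg'
          simp only [hφ] at h1
          simp only [eq_ratCast]
          rw [h1]; ring
      · intro hg
        refine ⟨⟨?_, ?_, ?_⟩, ?_⟩
        · intro i
          have h1 := hg _ (Or.inl ⟨i, rfl⟩)
          simp only [map_sub, aeval_X, aeval_C, crd] at h1
          rw [sub_eq_zero] at h1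
          rw [h1]
          split_ifs <;> simp
        · intro i
          have h1 := hg _ (Or.inr (Or.inl ⟨i, rfl⟩))
          simp only [map_sub, aeval_X, crd] at h1
          rw [sub_eq_zero] at h1
          rw [h1]
          split_ifs <;> simp [crd]
        · intro x i
          have h1 := hg _ (Or.inr (Or.inr (Or.inl ⟨x, i, rfl⟩)))
          simp only [map_sub, aeval_X, crd] at h1
          rw [sub_eq_zero] at h1
          rw [h1]
          split_ifs <;> simp [crd]
        · have h1 := hg _ (Or.inr (Or.inr (Or.inr rfl)))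
          simp only [map_sub, map_sum, map_mul, map_pow, aeval_X, aeval_C, crd] at h1
          simp only [eq_ratCast] at h1
          simp only [hφ]
          linear_combination h1
    · ext g
      have hgG : g ∈ {g : (Matrix m m ℂ)ˣ | p⁻¹ * g ∈ G} ↔
        (Fits M ((p⁻¹ * g : (Matrix m m ℂ)ˣ) : Matrix m m ℂ) ∧
        φ ((p⁻¹ * g : (Matrix m m ℂ)ˣ) : Matrix m m ℂ) =
          a * (1 - ((p⁻¹ * g : (Matrix m m ℂ)ˣ) : Matrix m m ℂ) M.t M.t ^ n)) := hG (p⁻¹ * g)
      rw [hgG]
      have hgk : (g : Matrix m m ℂ) = (p : Matrix m m ℂ) *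
          ((p⁻¹ * g : (Matrix m m ℂ)ˣ) : Matrix m m ℂ) := by
        rw [← Units.val_mul, mul_inv_cancel_left]
      constructor
      · rintro ⟨hg, hg'⟩
        have hk : Fits M ((p⁻¹ * g : (Matrix m m ℂ)ˣ) : Matrix m m ℂ) := by
          rw [Units.val_mul]; exact (hmul _ _ hfpi hg).1
        refine ⟨hk, ?_⟩
        have h1 := hφmul _ _ hfp hk
        have h2 := (hmul _ _ hfp hk).2.1
        rw [← hgk] at h1 h2
        rw [hg', hφp, h2, mul_pow] at h1
        linear_combination -h1
      · rintro ⟨hk, hk'⟩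
        have h1 := hφmul _ _ hfp hk
        have h2 := (hmul _ _ hfp hk).2.1
        have h3 := (hmul _ _ hfp hk).1
        rw [← hgk] at h1 h2 h3
        refine ⟨h3, ?_⟩
        rw [h1, h2, hk', hφp, mul_pow]
        ring
  have hsub := hN T hTor hpT
  have key : ∀ (x₀ : X) (z : ℂ), (c x₀ : ℂ) * z = a + b := by
    haveI : Nonempty m := ⟨M.o⟩
    intro x₀ z
    have hnil : IsNilpotent (z • (M.op x₀).map (algebraMap ℚ ℂ)) := by
      by_contra hcon
      have h1 := het z x₀
      have h0 : nilpotencyClass (z • (M.op x₀).map (algebraMap ℚ ℂ)) = 0 := by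
        by_contra h2
        exact hcon (pos_nilpotencyClass_iff.mp (Nat.pos_of_ne_zero h2))
      unfold IsNilpotent.exp at h1
      rw [h0] at h1
      simp at h1
    obtain ⟨u, hu⟩ := IsNilpotent.isUnit_exp hnil
    have hugp : u ∈ M.gp := Subgroup.subset_closure (Or.inr ⟨z, x₀, hu⟩)
    have huT := (hsub hugp).2
    rw [hu, het z x₀] at huT
    simp only [hφ] at huT
    rw [one_pow, mul_one] at huT
    rw [← huT]
    simp only [hes]
    simp
  funext x₀
  have h0 := key x₀ 0
  have h1 := key x₀ 1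
  rw [← h0] at h1
  have : (c x₀ : ℂ) = 0 := by simpa using h1
  exact_mod_cast this

end Pool.Agent.W906.MTZ
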